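import Mathlib

/-!
# MP_29b953_an, Q1: the compressing polynomial is not eventually unique

For every `n` the set `{2 cos (2 π j / 5 ^ (n + 1)) : 5 ∤ j}` of `2 * 5 ^ n` real numbers is an orbit
of the Chebyshev polynomial `x² - 2` and also an orbit of the Chebyshev polynomial `x³ - 3 x`,
because `2` and `3` are primitive roots modulo `5 ^ (n + 1)`.
-/

set_option autoImplicit false

open Polynomial

namespace Pool.Agent.Results.MP_29b953_an.Chebyshev

/-- `f` is a compressing function for `S`: for some `x₀ ∈ S` one has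
`S = {x₀, f x₀, …, f^{N-1} x₀}`, where `N` is the number of elements of `S`. -/
def Compresses (f : ℝ[X]) (S : Finset ℝ) : Prop :=
  ∃ x₀ ∈ S, S = (Finset.range S.card).image (fun i => (fun x : ℝ => f.eval x)^[i] x₀)

/-- `S` is `K`-compressible. -/
def Compressible (K : ℕ) (S : Finset ℝ) : Prop :=
  ∃ f : ℝ[X], f.natDegree ≤ K ∧ Compresses f S

/-- `S` is uniquely `K`-compressible: it is `K`-compressible and at most one polynomial of degree
between `2` and `K` compresses it. -/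
def UniquelyCompressible (K : ℕ) (S : Finset ℝ) : Prop :=
  Compressible K S ∧ ∀ f g : ℝ[X], (2 ≤ f.natDegree ∧ f.natDegree ≤ K) →
    (2 ≤ g.natDegree ∧ g.natDegree ≤ K) → Compresses f S → Compresses g S → f = g

/-! ### Arithmetic modulo powers of five -/

lemma four_dvd (k : ℤ) (hk : k = 2 ∨ k = 3) (m : ℕ) (h : (5 : ℤ) ∣ k ^ m - 1) : 4 ∣ m := by
  have h5 : (5 : ℤ) ∣ k ^ 4 - 1 := by rcases hk with rfl | rfl <;> norm_num
  have h1 : (5 : ℤ) ∣ (k ^ 4) ^ (m / 4) - 1 := by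
    have := sub_dvd_pow_sub_pow (k ^ 4) 1 (m / 4)
    rw [one_pow] at this
    exact h5.trans this
  have h2 : k ^ m = (k ^ 4) ^ (m / 4) * k ^ (m % 4) := by
    rw [← pow_mul, ← pow_add, Nat.div_add_mod]
  have h3 : (5 : ℤ) ∣ k ^ (m % 4) - 1 := by
    have e : k ^ (m % 4) - 1 = (k ^ m - 1) - k ^ (m % 4) * ((k ^ 4) ^ (m / 4) - 1) := by
      rw [h2]; ring
    rw [e]
    exact dvd_sub h (h1.mul_left _)
  have h4 : m % 4 < 4 := Nat.mod_lt _ (by norm_num)
  apply Nat.dvd_of_mod_eq_zero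
  interval_cases hm : m % 4
  · rfl
  all_goals
    exfalso
    rcases hk with rfl | rfl <;> norm_num at h3

lemma ord_dvd (k : ℤ) (hk : k = 2 ∨ k = 3) (n m : ℕ) (h : (5 : ℤ) ^ (n + 1) ∣ k ^ m - 1) :
    4 * 5 ^ n ∣ m := by
  obtain ⟨l, rfl⟩ := four_dvd k hk m ((dvd_pow_self _ (by omega)).trans h)
  apply mul_dvd_mul_left
  have hp : Nat.Prime 5 := by norm_num
  have h1 := Int.emultiplicity_pow_sub_pow hp (by decide) (x := k ^ 4) (y := 1)
    (by rcases hk with rfl | rfl <;> norm_num) (by rcases hk with rfl | rfl <;> norm_num) l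
  have h2 : emultiplicity ((5 : ℕ) : ℤ) (k ^ 4 - 1) = 1 := by
    have := emultiplicity_eq_of_dvd_of_not_dvd (a := ((5 : ℕ) : ℤ)) (b := k ^ 4 - 1) (k := 1)
      (by rcases hk with rfl | rfl <;> norm_num) (by rcases hk with rfl | rfl <;> norm_num)
    exact_mod_cast this
  rw [h2, one_pow, ← pow_mul] at h1
  have h3 : ((n + 1 : ℕ) : ℕ∞) ≤ emultiplicity ((5 : ℕ) : ℤ) (k ^ (4 * l) - 1) :=
    pow_dvd_iff_le_emultiplicity.1 (by exact_mod_cast h)
  rw [h1] at h3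
  rw [pow_dvd_iff_le_emultiplicity]
  have h4 : (n : ℕ∞) + 1 ≤ emultiplicity 5 l + 1 := by
    rw [add_comm (emultiplicity 5 l)]
    exact_mod_cast h3
  exact (ENat.add_le_add_iff_right (by simp)).1 h4

lemma coprime_k (k : ℕ) (hk : k = 2 ∨ k = 3) (n : ℕ) : k.Coprime (5 ^ (n + 1)) := by
  apply Nat.Coprime.pow_right
  rcases hk with rfl | rfl <;> norm_num

/-- `k ^ N ≡ -1` -/
lemma pow_half (k : ℕ) (hk : k = 2 ∨ k = 3) (n : ℕ) :
    (5 : ℤ) ^ (n + 1) ∣ (k : ℤ) ^ (2 * 5 ^ n) + 1 := by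
  have hk' : (k : ℤ) = 2 ∨ (k : ℤ) = 3 := by
    rcases hk with rfl | rfl <;> simp
  have h1 : (k ^ (5 ^ (n + 1)).totient) ≡ 1 [MOD 5 ^ (n + 1)] :=
    Nat.ModEq.pow_totient (coprime_k k hk n)
  rw [Nat.totient_prime_pow_succ (by norm_num)] at h1
  have h2 : (5 : ℤ) ^ (n + 1) ∣ (k : ℤ) ^ (5 ^ n * (5 - 1)) - 1 := by
    have := (Nat.modEq_iff_dvd.1 h1.symm)
    push_cast at this
    exact_mod_cast this
  have e : (k : ℤ) ^ (5 ^ n * (5 - 1)) - 1
      = ((k : ℤ) ^ (2 * 5 ^ n) - 1) * ((k : ℤ) ^ (2 * 5 ^ n) + 1) := by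
    have : 5 ^ n * (5 - 1) = 2 * 5 ^ n + 2 * 5 ^ n := by norm_num; ring
    rw [this, pow_add]; ring
  rw [e] at h2
  have h3 : ¬ (5 : ℤ) ∣ (k : ℤ) ^ (2 * 5 ^ n) - 1 := by
    intro h
    have h4 := four_dvd k hk' _ h
    have h5 : 2 ∣ 5 ^ n := by omega
    have h6 := (Nat.prime_two.dvd_of_dvd_pow h5)
    norm_num at h6
  have h4 : IsCoprime ((5 : ℤ) ^ (n + 1)) ((k : ℤ) ^ (2 * 5 ^ n) - 1) := by
    apply IsCoprime.pow_left
    exact (Prime.coprime_iff_not_dvd (by norm_num : Prime (5 : ℤ))).2 h3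
  exact h4.dvd_of_dvd_mul_left h2

/-- every unit is a power of `k` up to sign -/
lemma exists_pow (k : ℕ) (hk : k = 2 ∨ k = 3) (n : ℕ) (a : ℕ) (ha : a.Coprime (5 ^ (n + 1))) :
    ∃ j < 2 * 5 ^ n, (5 : ℤ) ^ (n + 1) ∣ (a : ℤ) - (k : ℤ) ^ j ∨
      (5 : ℤ) ^ (n + 1) ∣ (a : ℤ) + (k : ℤ) ^ j := by
  have hk' : (k : ℤ) = 2 ∨ (k : ℤ) = 3 := by
    rcases hk with rfl | rfl <;> simp
  have : NeZero (5 ^ (n + 1)) := ⟨by positivity⟩
  set u := ZMod.unitOfCoprime k (coprime_k k hk n) with hu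
  set v := ZMod.unitOfCoprime a ha with hv
  have hcard : Nat.card (ZMod (5 ^ (n + 1)))ˣ = 4 * 5 ^ n := by
    rw [Nat.card_eq_fintype_card, ZMod.card_units_eq_totient,
      Nat.totient_prime_pow_succ (by norm_num)]
    norm_num; ring
  have hpow : ∀ m : ℕ, u ^ m = 1 → (5 : ℤ) ^ (n + 1) ∣ (k : ℤ) ^ m - 1 := by
    intro m hm
    have h1 : ((u ^ m : (ZMod (5 ^ (n + 1)))ˣ) : ZMod (5 ^ (n + 1))) = 1 := by rw [hm]; rfl
    rw [Units.val_pow_eq_pow_val, hu, ZMod.coe_unitOfCoprime] at h1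
    have h2 : (((k : ℤ) ^ m - 1 : ℤ) : ZMod (5 ^ (n + 1))) = 0 := by
      push_cast
      rw [h1, sub_self]
    rw [ZMod.intCast_zmod_eq_zero_iff_dvd] at h2
    exact_mod_cast h2
  have hord : orderOf u = 4 * 5 ^ n := by
    apply Nat.dvd_antisymm
    · rw [← hcard]; exact orderOf_dvd_natCard u
    · exact ord_dvd k hk' n _ (hpow _ (pow_orderOf_eq_one u))
  have htop : Subgroup.zpowers u = ⊤ := by
    apply Subgroup.eq_top_of_card_eq
    rw [Nat.card_zpowers, hord, hcard]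
  classical
  have hmem : v ∈ Subgroup.zpowers u := by rw [htop]; trivial
  rw [mem_zpowers_iff_mem_range_orderOf, Finset.mem_image] at hmem
  obtain ⟨j, hj, hjv⟩ := hmem
  rw [Finset.mem_range, hord] at hj
  have hdiv : (5 : ℤ) ^ (n + 1) ∣ (a : ℤ) - (k : ℤ) ^ j := by
    have h1 : ((u ^ j : (ZMod (5 ^ (n + 1)))ˣ) : ZMod (5 ^ (n + 1))) = (v : ZMod (5 ^ (n + 1))) := by
      rw [hjv]
    rw [Units.val_pow_eq_pow_val, hu, ZMod.coe_unitOfCoprime, hv, ZMod.coe_unitOfCoprime] at h1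
    have h2 : (((a : ℤ) - (k : ℤ) ^ j : ℤ) : ZMod (5 ^ (n + 1))) = 0 := by
      push_cast
      rw [h1, sub_self]
    rw [ZMod.intCast_zmod_eq_zero_iff_dvd] at h2
    exact_mod_cast h2
  by_cases hjN : j < 2 * 5 ^ n
  · exact ⟨j, hjN, Or.inl hdiv⟩
  · push Not at hjN
    refine ⟨j - 2 * 5 ^ n, by omega, Or.inr ?_⟩
    have h1 := pow_half k hk n
    have e : (a : ℤ) + (k : ℤ) ^ (j - 2 * 5 ^ n)
        = ((a : ℤ) - (k : ℤ) ^ j) + (k : ℤ) ^ (j - 2 * 5 ^ n) * ((k : ℤ) ^ (2 * 5 ^ n) + 1) := by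
      have : (k : ℤ) ^ j = (k : ℤ) ^ (j - 2 * 5 ^ n) * (k : ℤ) ^ (2 * 5 ^ n) := by
        rw [← pow_add]; congr 1; omega
      rw [this]; ring
    rw [e]
    exact dvd_add hdiv (h1.mul_left _)

/-- injectivity up to sign -/
lemma no_coincidence (k : ℕ) (hk : k = 2 ∨ k = 3) (n i j : ℕ) (hij : i < j) (hj : j < 2 * 5 ^ n)
    (h : (5 : ℤ) ^ (n + 1) ∣ (k : ℤ) ^ j - (k : ℤ) ^ i ∨
      (5 : ℤ) ^ (n + 1) ∣ (k : ℤ) ^ j + (k : ℤ) ^ i) : False := by
  have hk' : (k : ℤ) = 2 ∨ (k : ℤ) = 3 := by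
    rcases hk with rfl | rfl <;> simp
  obtain ⟨d, rfl⟩ := Nat.exists_eq_add_of_lt hij
  have hcop : IsCoprime ((5 : ℤ) ^ (n + 1)) ((k : ℤ) ^ i) := by
    apply IsCoprime.pow
    rw [Int.isCoprime_iff_gcd_eq_one]
    rcases hk with rfl | rfl <;> norm_num
  have h1 : (5 : ℤ) ^ (n + 1) ∣ (k : ℤ) ^ (2 * (d + 1)) - 1 := by
    have e : (k : ℤ) ^ (2 * (d + 1)) - 1
        = ((k : ℤ) ^ (d + 1) - 1) * ((k : ℤ) ^ (d + 1) + 1) := by
      rw [two_mul, pow_add]; ring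
    rw [e]
    rcases h with h | h
    · have e2 : (k : ℤ) ^ (i + d + 1) - (k : ℤ) ^ i = (k : ℤ) ^ i * ((k : ℤ) ^ (d + 1) - 1) := by
        rw [add_assoc, pow_add]; ring
      rw [e2] at h
      exact (hcop.dvd_of_dvd_mul_left h).mul_right _
    · have e2 : (k : ℤ) ^ (i + d + 1) + (k : ℤ) ^ i = (k : ℤ) ^ i * ((k : ℤ) ^ (d + 1) + 1) := by
        rw [add_assoc, pow_add]; ring
      rw [e2] at h
      exact (hcop.dvd_of_dvd_mul_left h).mul_left _
  have h2 := ord_dvd k hk' n _ h1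
  have h3 : 2 * 5 ^ n ∣ d + 1 := by
    have : 4 * 5 ^ n = 2 * (2 * 5 ^ n) := by ring
    rw [this] at h2
    exact Nat.dvd_of_mul_dvd_mul_left (by norm_num) h2
  have h4 := Nat.le_of_dvd (by omega) h3
  omega

/-! ### The points -/

lemma cos_eq_iff (q : ℕ) (hq : 0 < q) (a b : ℤ) :
    Real.cos (2 * Real.pi * a / q) = Real.cos (2 * Real.pi * b / q) ↔
      (q : ℤ) ∣ b - a ∨ (q : ℤ) ∣ b + a := by
  have hq' : (q : ℝ) ≠ 0 := by positivity
  have hpi := Real.pi_pos.ne'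
  rw [Real.cos_eq_cos_iff]
  constructor
  · rintro ⟨k, hk | hk⟩
    · left
      refine ⟨k, ?_⟩
      field_simp at hk
      have : (b : ℝ) - a = q * k := by linarith
      exact_mod_cast this
    · right
      refine ⟨k, ?_⟩
      field_simp at hk
      have : (b : ℝ) + a = q * k := by linarith
      exact_mod_cast this
  · rintro (⟨k, hk⟩ | ⟨k, hk⟩)
    · refine ⟨k, Or.inl ?_⟩
      have : (b : ℝ) - a = q * k := by exact_mod_cast hk
      have hb : (b : ℝ) = a + q * k := by linarith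
      rw [hb]; field_simp; ring
    · refine ⟨k, Or.inr ?_⟩
      have : (b : ℝ) + a = q * k := by exact_mod_cast hk
      have hb : (b : ℝ) = q * k - a := by linarith
      rw [hb]; field_simp

/-- the points of the orbit -/
noncomputable def pt (n k i : ℕ) : ℝ :=
  2 * Real.cos (2 * Real.pi * (((k : ℤ) ^ i : ℤ) : ℝ) / ((5 ^ (n + 1) : ℕ) : ℝ))

/-- the orbit as a set -/
noncomputable def orb (n k : ℕ) : Finset ℝ := (Finset.range (2 * 5 ^ n)).image (pt n k)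

lemma card_orb (n k : ℕ) (hk : k = 2 ∨ k = 3) : (orb n k).card = 2 * 5 ^ n := by
  unfold orb
  rw [Finset.card_image_of_injOn, Finset.card_range]
  have key : ∀ i j : ℕ, i < j → j < 2 * 5 ^ n → pt n k i ≠ pt n k j := by
    intro i j hij hj h
    unfold pt at h
    have h1 := mul_left_cancel₀ (by norm_num : (2 : ℝ) ≠ 0) h
    rw [cos_eq_iff _ (by positivity)] at h1
    refine no_coincidence k hk n i j hij hj ?_
    simpa using h1
  intro i hi j hj h
  simp only [Finset.coe_range, Set.mem_Iio] at hi hj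
  rcases lt_trichotomy i j with h1 | h1 | h1
  · exact absurd h (key i j h1 hj)
  · exact h1
  · exact absurd h.symm (key j i h1 hi)

lemma orb_eq (n : ℕ) : orb n 3 = orb n 2 := by
  apply Finset.eq_of_subset_of_card_le
  · intro x hx
    unfold orb at hx ⊢
    rw [Finset.mem_image] at hx ⊢
    obtain ⟨i, hi, rfl⟩ := hx
    obtain ⟨j, hj, h⟩ := exists_pow 2 (Or.inl rfl) n (3 ^ i)
      (Nat.Coprime.pow_left i (coprime_k 3 (Or.inr rfl) n))
    refine ⟨j, Finset.mem_range.2 hj, ?_⟩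
    unfold pt
    congr 1
    rw [cos_eq_iff _ (by positivity)]
    simpa using h
  · rw [card_orb n 3 (Or.inr rfl), card_orb n 2 (Or.inl rfl)]

lemma iter_two (n i : ℕ) :
    (fun x : ℝ => (X ^ 2 - C 2 : ℝ[X]).eval x)^[i] (pt n 2 0) = pt n 2 i := by
  induction i with
  | zero => rfl
  | succ i ih =>
    rw [Function.iterate_succ_apply', ih]
    unfold pt
    have e : 2 * Real.pi * ((((2 : ℕ) : ℤ) ^ (i + 1) : ℤ) : ℝ) / ((5 ^ (n + 1) : ℕ) : ℝ)
        = 2 * (2 * Real.pi * ((((2 : ℕ) : ℤ) ^ i : ℤ) : ℝ) / ((5 ^ (n + 1) : ℕ) : ℝ)) := by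
      push_cast; rw [pow_succ]; ring
    rw [e, Real.cos_two_mul]
    simp only [eval_sub, eval_pow, eval_X, eval_C]
    ring

lemma iter_three (n i : ℕ) :
    (fun x : ℝ => (X ^ 3 - C 3 * X : ℝ[X]).eval x)^[i] (pt n 3 0) = pt n 3 i := by
  induction i with
  | zero => rfl
  | succ i ih =>
    rw [Function.iterate_succ_apply', ih]
    unfold pt
    have e : 2 * Real.pi * ((((3 : ℕ) : ℤ) ^ (i + 1) : ℤ) : ℝ) / ((5 ^ (n + 1) : ℕ) : ℝ)
        = 3 * (2 * Real.pi * ((((3 : ℕ) : ℤ) ^ i : ℤ) : ℝ) / ((5 ^ (n + 1) : ℕ) : ℝ)) := by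
      push_cast; rw [pow_succ]; ring
    rw [e, Real.cos_three_mul]
    simp only [eval_sub, eval_mul, eval_pow, eval_X, eval_C]
    ring

lemma compresses_two (n : ℕ) : Compresses (X ^ 2 - C 2) (orb n 2) := by
  refine ⟨pt n 2 0, ?_, ?_⟩
  · unfold orb
    exact Finset.mem_image_of_mem _ (Finset.mem_range.2 (by positivity))
  · rw [card_orb n 2 (Or.inl rfl)]
    unfold orb
    apply Finset.image_congr
    intro i _
    exact (iter_two n i).symm

lemma compresses_three (n : ℕ) : Compresses (X ^ 3 - C 3 * X) (orb n 2) := by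
  rw [← orb_eq]
  refine ⟨pt n 3 0, ?_, ?_⟩
  · unfold orb
    exact Finset.mem_image_of_mem _ (Finset.mem_range.2 (by positivity))
  · rw [card_orb n 3 (Or.inr rfl)]
    unfold orb
    apply Finset.image_congr
    intro i _
    exact (iter_three n i).symm

lemma deg_two : (X ^ 2 - C 2 : ℝ[X]).natDegree = 2 := natDegree_X_pow_sub_C

lemma deg_three : (X ^ 3 - C 3 * X : ℝ[X]).natDegree = 3 := by compute_degree!

/-- For every `K ≥ 3` and every `M` there is a set of more than `M` reals which is compressed by two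
different polynomials `f`, `g` of degree between `2` and `K`; so it is `K`-compressible but not
uniquely `K`-compressible. Hence the bound `M(K)` of the conjecture does not exist for any
`K ≥ 3`. -/
theorem result :
    (∀ K : ℕ, 3 ≤ K → ∀ M : ℕ, ∃ S : Finset ℝ, M ≤ S.card ∧ Compressible K S ∧
      ¬ UniquelyCompressible K S ∧
      ∃ f g : ℝ[X], f ≠ g ∧ (2 ≤ f.natDegree ∧ f.natDegree ≤ K) ∧
        (2 ≤ g.natDegree ∧ g.natDegree ≤ K) ∧ Compresses f S ∧ Compresses g S) ∧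
    (∀ K : ℕ, 3 ≤ K → ¬ ∃ M : ℕ, ∀ N : ℕ, M ≤ N → ∀ S : Finset ℝ, S.card = N →
      Compressible K S → UniquelyCompressible K S) ∧
    ¬ ∀ K : ℕ, 2 ≤ K → ∃ M : ℕ, ∀ N : ℕ, M ≤ N → ∀ S : Finset ℝ, S.card = N →
      Compressible K S → UniquelyCompressible K S := by
  have main : ∀ K : ℕ, 3 ≤ K → ∀ M : ℕ, ∃ S : Finset ℝ, M ≤ S.card ∧ Compressible K S ∧
      ¬ UniquelyCompressible K S ∧
      ∃ f g : ℝ[X], f ≠ g ∧ (2 ≤ f.natDegree ∧ f.natDegree ≤ K) ∧
        (2 ≤ g.natDegree ∧ g.natDegree ≤ K) ∧ Compresses f S ∧ Compresses g S := by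
    intro K hK M
    have hne : (X ^ 2 - C 2 : ℝ[X]) ≠ X ^ 3 - C 3 * X := by
      intro h
      have h1 := deg_two
      rw [h, deg_three] at h1
      norm_num at h1
    have h2 : 2 ≤ (X ^ 2 - C 2 : ℝ[X]).natDegree ∧ (X ^ 2 - C 2 : ℝ[X]).natDegree ≤ K := by
      rw [deg_two]; omega
    have h3 : 2 ≤ (X ^ 3 - C 3 * X : ℝ[X]).natDegree ∧ (X ^ 3 - C 3 * X : ℝ[X]).natDegree ≤ K := by
      rw [deg_three]; omega
    refine ⟨orb M 2, ?_, ⟨_, h2.2, compresses_two M⟩, ?_, _, _, hne, h2, h3, compresses_two M,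
      compresses_three M⟩
    · rw [card_orb M 2 (Or.inl rfl)]
      have : M < 5 ^ M := Nat.lt_pow_self (by norm_num)
      omega
    · rintro ⟨_, h⟩
      exact hne (h _ _ h2 h3 (compresses_two M) (compresses_three M))
  have main2 : ∀ K : ℕ, 3 ≤ K → ¬ ∃ M : ℕ, ∀ N : ℕ, M ≤ N → ∀ S : Finset ℝ, S.card = N →
      Compressible K S → UniquelyCompressible K S := by
    rintro K hK ⟨M, hM⟩
    obtain ⟨S, h1, h2, h3, _⟩ := main K hK M
    exact h3 (hM _ h1 S rfl h2)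
  exact ⟨main, main2, fun h => main2 3 le_rfl (h 3 (by norm_num))⟩

end Pool.Agent.Results.MP_29b953_an.Chebyshev
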